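import Pool.Agent.R270.WF.M9
import Pool.Agent.R270.WF.M1
import Pool.Agent.R270.WF.M2
import Pool.Agent.R270.WF.M3a
import Pool.Agent.R270.WF.M3b
import Pool.Agent.R270.WF.M4
import Pool.Agent.R270.WF.M5
import Pool.Agent.R270.WF.M6
import Pool.Agent.R270.WF.M8a
import Pool.Agent.R270.WF.M8b
import Pool.Agent.R270.WF.M8c

/-! MP_657b9f_lc, Q1: YES.  The well-founded part of the Wadge order (subsets of `ℝ` reducible to `ℚ`, neither open nor
closed) contains a set which is not equivalent to the minimal one. -/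

namespace Pool.Agent.Results.MP_657b9f_lc.ImmediateSuccessor
open Set Pool.Agent.R270.WF

/-- There are `E, A` in the class `𝒟` (reducible to `ℚ`, not open, not closed) such that `E` is minimal, `E < A`, every member of `𝒟`
below `A` is equivalent to `A` or to `E`, and no infinite strictly decreasing sequence in `𝒟` starts at `A`. -/
theorem result : ∃ E A : Set ℝ,
    (Red E (Set.range ((↑) : ℚ → ℝ)) ∧ ¬ IsOpen E ∧ ¬ IsClosed E) ∧
    (Red A (Set.range ((↑) : ℚ → ℝ)) ∧ ¬ IsOpen A ∧ ¬ IsClosed A) ∧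
    (∀ B : Set ℝ, ¬ IsOpen B → ¬ IsClosed B → Red B E → Red E B) ∧
    Red E A ∧ ¬ Red A E ∧
    (∀ X : Set ℝ, (Red X (Set.range ((↑) : ℚ → ℝ)) ∧ ¬ IsOpen X ∧ ¬ IsClosed X) → Red X A →
      (Red A X ∨ (Red X E ∧ Red E X))) ∧
    ¬ ∃ S : ℕ → Set ℝ, S 0 = A ∧
      ∀ n, (Red (S n) (Set.range ((↑) : ℚ → ℝ)) ∧ ¬ IsOpen (S n) ∧ ¬ IsClosed (S n)) ∧
        Red (S (n + 1)) (S n) ∧ ¬ Red (S n) (S (n + 1)) := by
  obtain ⟨W, hW, tW, dW, rW, bW⟩ := exists_W stmM8a stmM8b stmM8c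
  obtain ⟨E, hE, hEW, bE⟩ := exists_E stmM8a hW dW
  obtain ⟨h1, h2, h3, h4⟩ := main_arg stmM1 stmM2 (stmM3b stmM3a) stmM4 stmM5 stmM6 hW tW dW rW bW hE hEW bE
  exact ⟨E, W, hE, hW, h1, hEW, h2, h3, h4⟩

end Pool.Agent.Results.MP_657b9f_lc.ImmediateSuccessor
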